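import Mathlib

-- part Pool.Agent.Lib.MP_64528c_al.BNS
section

/-!
Openness of the set of fibering characters: if `χ` is a nonzero integer character with finitely
generated kernel and `ψ` is any character, then `m χ + ψ` has finitely generated kernel for all
large `m`.
-/

set_option autoImplicit false

namespace Pool.Agent.Lib.MP_64528c_al

variable {G : Type*} [Group G]

/-- `ψ` is additive on the subgroup `K`. -/
def IsChar (K : Subgroup G) (ψ : G → ℤ) : Prop := ∀ a ∈ K, ∀ b ∈ K, ψ (a * b) = ψ a + ψ b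

namespace IsChar

variable {K : Subgroup G} {ψ : G → ℤ}

lemma one (h : IsChar K ψ) : ψ 1 = 0 := by
  have := h 1 K.one_mem 1 K.one_mem
  simpa using this

lemma inv (h : IsChar K ψ) {a : G} (ha : a ∈ K) : ψ a⁻¹ = -ψ a := by
  have := h a ha a⁻¹ (K.inv_mem ha)
  rw [mul_inv_cancel, h.one] at this
  linarith

lemma pow (h : IsChar K ψ) {a : G} (ha : a ∈ K) (n : ℕ) : ψ (a ^ n) = n * ψ a := by
  induction n with
  | zero => simp [h.one]
  | succ n ih => rw [pow_succ, h _ (K.pow_mem ha n) _ ha, ih]; push_cast; ring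

lemma zpow (h : IsChar K ψ) {a : G} (ha : a ∈ K) (n : ℤ) : ψ (a ^ n) = n * ψ a := by
  obtain ⟨k, rfl | rfl⟩ := Int.eq_nat_or_neg n
  · rw [zpow_natCast, h.pow ha]
  · rw [zpow_neg, zpow_natCast, h.inv (K.pow_mem ha k), h.pow ha]; ring

lemma mono (h : IsChar K ψ) {K' : Subgroup G} (hK : K' ≤ K) : IsChar K' ψ :=
  fun a ha b hb => h a (hK ha) b (hK hb)

/-- The elements of `K` whose value is divisible by `n`; for `n = 0` the kernel. -/
def pre (h : IsChar K ψ) (n : ℤ) : Subgroup G where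
  carrier := {g | g ∈ K ∧ n ∣ ψ g}
  one_mem' := ⟨K.one_mem, by simp [h.one]⟩
  mul_mem' := fun {a b} ha hb => ⟨K.mul_mem ha.1 hb.1, by
    rw [h a ha.1 b hb.1]; exact dvd_add ha.2 hb.2⟩
  inv_mem' := fun {a} ha => ⟨K.inv_mem ha.1, by rw [h.inv ha.1]; exact dvd_neg.mpr ha.2⟩

lemma mem_pre (h : IsChar K ψ) {n : ℤ} {g : G} : g ∈ h.pre n ↔ g ∈ K ∧ n ∣ ψ g := Iff.rfl

lemma mem_pre_zero (h : IsChar K ψ) {g : G} : g ∈ h.pre 0 ↔ g ∈ K ∧ ψ g = 0 := by
  simp [mem_pre]

lemma comb {χ : G → ℤ} (h : IsChar K χ) (h' : IsChar K ψ) (m : ℤ) :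
    IsChar K (fun g => m * χ g + ψ g) := by
  intro a ha b hb
  simp only [h a ha b hb, h' a ha b hb]
  ring

end IsChar

/-- Paths in the Cayley graph for `A` staying inside `p`. -/
def Reach (A : Set G) (p : G → Prop) : G → G → Prop :=
  Relation.ReflTransGen (fun x y => p x ∧ p y ∧ x⁻¹ * y ∈ A)

lemma Reach.symm' {A : Set G} (hA : ∀ a ∈ A, a⁻¹ ∈ A) {p : G → Prop} {x y : G}
    (h : Reach A p x y) : Reach A p y x := by
  induction h with
  | refl => exact Relation.ReflTransGen.refl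
  | tail _ h2 ih =>
    refine Relation.ReflTransGen.head ⟨h2.2.1, h2.1, ?_⟩ ih
    simpa using hA _ h2.2.2

lemma Reach.mono {A : Set G} {p q : G → Prop} (hpq : ∀ x, p x → q x) {x y : G}
    (h : Reach A p x y) : Reach A q x y := by
  induction h with
  | refl => exact Relation.ReflTransGen.refl
  | tail _ h2 ih => exact Relation.ReflTransGen.tail ih ⟨hpq _ h2.1, hpq _ h2.2.1, h2.2.2⟩

lemma reach_list {A S : Set G} (hSA : S ⊆ A) {χ : G → ℤ} (hχ : IsChar ⊤ χ) {B : ℤ} (hB0 : 0 ≤ B)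
    (hB : ∀ s ∈ S, |χ s| ≤ B) (a b : ℤ) (l : List G) (hl : ∀ s ∈ l, s ∈ S) (g : G)
    (h1 : a ≤ χ g - B * l.length) (h2 : χ g + B * l.length ≤ b) :
    Reach A (fun x => a ≤ χ x ∧ χ x ≤ b) g (g * l.prod) := by
  induction l generalizing g with
  | nil =>
    rw [List.prod_nil, mul_one]
    exact Relation.ReflTransGen.refl
  | cons s l ih =>
    have hs := hl s (by simp)
    have hs' := abs_le.mp (hB s hs)
    have e : χ (g * s) = χ g + χ s := hχ _ trivial _ trivial
    simp only [List.length_cons, Nat.cast_add, Nat.cast_one] at h1 h2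
    have hp : 0 ≤ B * (l.length : ℤ) := by positivity
    rw [List.prod_cons, ← mul_assoc]
    refine Relation.ReflTransGen.head (b := g * s) ⟨⟨by nlinarith, by nlinarith⟩,
      ⟨by nlinarith, by nlinarith⟩, by simpa using hSA hs⟩ ?_
    exact ih (fun x hx => hl x (by simp [hx])) (g * s) (by nlinarith) (by nlinarith)

lemma push_down {S : Set G} (hS : ∀ s ∈ S, s⁻¹ ∈ S) {t : G} {χ : G → ℤ} (hχ : IsChar ⊤ χ)
    {B : ℤ} (hB0 : 0 ≤ B) (hB : ∀ s ∈ S, |χ s| ≤ B) {L : ℕ}
    (hL : ∀ s ∈ S, ∃ l : List G, (∀ x ∈ l, x ∈ S) ∧ l.prod = t * s * t⁻¹ ∧ l.length ≤ L)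
    (hD : B * L < χ t) {A : Set G} (hA : ∀ x, x ∈ A ↔ x ∈ S ∨ x = t ∨ x = t⁻¹)
    {a b : ℤ} (ha : a ≤ 0) (hb : χ t + B + B * L < b) {x y : G}
    (h : Reach A (fun x => a ≤ χ x ∧ χ x ≤ b) x y) (hx : χ x ≠ b) (hy : χ y ≠ b) :
    Reach A (fun x => a ≤ χ x ∧ χ x ≤ b - 1) x y := by
  classical
  have hBL : 0 ≤ B * (L : ℤ) := by positivity
  have hAs : ∀ a ∈ A, a⁻¹ ∈ A := by
    intro a ha
    rw [hA] at ha ⊢
    rcases ha with h | rfl | rfl
    · exact Or.inl (hS _ h)
    · exact Or.inr (Or.inr rfl)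
    · exact Or.inr (Or.inl (by simp))
  have hSA : S ⊆ A := fun s hs => (hA s).mpr (Or.inl hs)
  have hmul : ∀ u v, χ (u * v) = χ u + χ v := fun u v => hχ u trivial v trivial
  have hinv : ∀ u, χ u⁻¹ = -χ u := fun u => hχ.inv trivial
  let φ : G → G := fun g => if χ g = b then g * t⁻¹ else g
  have key : ∀ u v : G, ((a ≤ χ u ∧ χ u ≤ b) ∧ (a ≤ χ v ∧ χ v ≤ b) ∧ u⁻¹ * v ∈ A) →
      Reach A (fun x => a ≤ χ x ∧ χ x ≤ b - 1) (φ u) (φ v) := by
    rintro u v ⟨hu, hv, huv⟩
    by_cases hboth : χ u ≠ b ∧ χ v ≠ b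
    · simp only [φ, if_neg hboth.1, if_neg hboth.2]
      exact Relation.ReflTransGen.single ⟨⟨hu.1, by omega⟩, ⟨hv.1, by omega⟩, huv⟩
    obtain ⟨s, rfl⟩ : ∃ s, v = u * s := ⟨u⁻¹ * v, by simp⟩
    simp only [inv_mul_cancel_left] at huv
    rw [hmul] at hv hboth
    rcases (hA s).mp huv with hs | rfl | rfl
    · have hs' := abs_le.mp (hB s hs)
      have dn : ∀ w : G, b - B ≤ χ w → χ w ≤ b →
          Reach A (fun x => a ≤ χ x ∧ χ x ≤ b - 1) (φ w) (w * t⁻¹) := by
        intro w h1 h2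
        by_cases hw : χ w = b
        · simp only [φ, if_pos hw]
          exact Relation.ReflTransGen.refl
        · simp only [φ, if_neg hw]
          refine Relation.ReflTransGen.single ⟨⟨by omega, by omega⟩, ?_, ?_⟩
          · simp only [hmul, hinv]
            omega
          · simpa using (hA _).mpr (Or.inr (Or.inr rfl))
      obtain ⟨l, hl, hprod, hlen⟩ := hL s hs
      have hlen' : B * (l.length : ℤ) ≤ B * L :=
        mul_le_mul_of_nonneg_left (by exact_mod_cast hlen) hB0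
      have h1 : b - B ≤ χ u := by omega
      have h2 : b - B ≤ χ (u * s) := by rw [hmul]; omega
      have mid := reach_list hSA hχ hB0 hB a (b - 1) l hl (u * t⁻¹)
        (by rw [hmul, hinv]; omega) (by rw [hmul, hinv]; omega)
      rw [hprod] at mid
      have e : u * t⁻¹ * (t * s * t⁻¹) = u * s * t⁻¹ := by group
      rw [e] at mid
      exact Relation.ReflTransGen.trans (Relation.ReflTransGen.trans (dn u h1 hu.2) mid)
        (Reach.symm' hAs (dn (u * s) h2 (by rw [hmul]; exact hv.2)))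
    · have h1 : χ u ≠ b := by omega
      have h2 : χ (u * s) = b := by rw [hmul]; omega
      simp only [φ, if_neg h1, if_pos h2, mul_inv_cancel_right]
      exact Relation.ReflTransGen.refl
    · rw [hinv] at hv hboth
      have h1 : χ u = b := by omega
      have h2 : χ (u * t⁻¹) ≠ b := by rw [hmul, hinv]; omega
      simp only [φ, if_pos h1, if_neg h2]
      exact Relation.ReflTransGen.refl
  have : Reach A (fun x => a ≤ χ x ∧ χ x ≤ b - 1) (φ x) (φ y) := by
    clear hy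
    induction h with
    | refl => exact Relation.ReflTransGen.refl
    | tail _ h2 ih => exact Relation.ReflTransGen.trans ih (key _ _ h2)
  simpa only [φ, if_neg hx, if_neg hy] using this

lemma push_down_all {S : Set G} (hS : ∀ s ∈ S, s⁻¹ ∈ S) {t : G} {χ : G → ℤ} (hχ : IsChar ⊤ χ)
    {B : ℤ} (hB0 : 0 ≤ B) (hB : ∀ s ∈ S, |χ s| ≤ B) {L : ℕ}
    (hL : ∀ s ∈ S, ∃ l : List G, (∀ x ∈ l, x ∈ S) ∧ l.prod = t * s * t⁻¹ ∧ l.length ≤ L)
    (hD : B * L < χ t) {A : Set G} (hA : ∀ x, x ∈ A ↔ x ∈ S ∨ x = t ∨ x = t⁻¹)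
    {a : ℤ} (ha : a ≤ 0) {x y : G} (hx : χ x = 0) (hy : χ y = 0) (n : ℕ)
    (h : Reach A (fun x => a ≤ χ x ∧ χ x ≤ χ t + B + B * L + n) x y) :
    Reach A (fun x => a ≤ χ x ∧ χ x ≤ χ t + B + B * L) x y := by
  have hBL : 0 ≤ B * (L : ℤ) := by positivity
  induction n with
  | zero => simpa using h
  | succ n ih =>
    apply ih
    have := push_down hS hχ hB0 hB hL hD hA ha (by push_cast; omega) h
      (by push_cast; omega) (by push_cast; omega)
    refine this.mono (fun x hx => ⟨hx.1, ?_⟩)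
    have := hx.2
    push_cast at this
    omega

lemma reach_bounded {A : Set G} {χ : G → ℤ} {x y : G} (h : Reach A (fun _ => True) x y) :
    ∃ n : ℕ, Reach A (fun x => -(n : ℤ) ≤ χ x ∧ χ x ≤ n) x y := by
  induction h with
  | refl => exact ⟨0, Relation.ReflTransGen.refl⟩
  | @tail u v _ h2 ih =>
    obtain ⟨n, hn⟩ := ih
    refine ⟨n + (χ u).natAbs + (χ v).natAbs, Relation.ReflTransGen.tail
      (hn.mono (fun x hx => by omega)) ⟨?_, ?_, h2.2.2⟩⟩
    · omega
    · omega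

lemma fg_of_reach {A : Set G} (hA : A.Finite) {χ : G → ℤ} (hχ : IsChar ⊤ χ) (R : ℤ)
    (h : ∀ g, χ g = 0 → Reach A (fun x => -R ≤ χ x ∧ χ x ≤ R) 1 g) : (hχ.pre 0).FG := by
  classical
  have hmul : ∀ u v, χ (u * v) = χ u + χ v := fun u v => hχ u trivial v trivial
  have hinv : ∀ u, χ u⁻¹ = -χ u := fun u => hχ.inv trivial
  let rep : ℤ → G := fun j => if h : ∃ x, χ x = j then h.choose else 1
  have hrep : ∀ x, χ (rep (χ x)) = χ x := by
    intro x
    have h : ∃ y, χ y = χ x := ⟨x, rfl⟩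
    simp only [rep, dif_pos h]
    exact h.choose_spec
  let T : Set G := (insert (rep 0)
    ((fun p : ℤ × G => rep p.1 * p.2 * (rep (p.1 + χ p.2))⁻¹) '' (Set.Icc (-R) R ×ˢ A))) ∩
      {g | χ g = 0}
  have hT : T.Finite := (((Set.finite_Icc _ _).prod hA).image _).insert _ |>.inter_of_left _
  have h0 : rep 0 ∈ Subgroup.closure T := by
    apply Subgroup.subset_closure
    refine ⟨Or.inl rfl, ?_⟩
    have := hrep 1
    rwa [hχ.one] at this
  rw [Subgroup.fg_iff]
  refine ⟨T, le_antisymm ?_ ?_, hT⟩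
  · rw [Subgroup.closure_le]
    intro g hg
    exact hχ.mem_pre_zero.mpr ⟨trivial, hg.2⟩
  · intro g hg
    have hg0 := (hχ.mem_pre_zero.mp hg).2
    have key : ∀ y, Reach A (fun x => -R ≤ χ x ∧ χ x ≤ R) 1 y →
        y * (rep (χ y))⁻¹ ∈ Subgroup.closure T := by
      intro y hy
      induction hy with
      | refl => simpa [hχ.one] using h0
      | @tail u v _ h2 ih =>
        obtain ⟨s, rfl⟩ : ∃ s, v = u * s := ⟨u⁻¹ * v, by simp⟩
        have e : u * s * (rep (χ (u * s)))⁻¹ =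
            u * (rep (χ u))⁻¹ * (rep (χ u) * s * (rep (χ u + χ s))⁻¹) := by
          rw [hmul]; group
        rw [e]
        refine Subgroup.mul_mem _ ih (Subgroup.subset_closure ⟨Or.inr ⟨(χ u, s), ⟨h2.1, ?_⟩, rfl⟩, ?_⟩)
        · simpa using h2.2.2
        · simp only [Set.mem_ofPred_eq]
          rw [hmul, hmul, hinv, ← hmul u s, hrep, hrep, hmul]
          ring
    have := key g (h g hg0)
    rw [hg0] at this
    simpa using Subgroup.mul_mem _ this h0

theorem open_top {χ ψ : G → ℤ} (hχ : IsChar ⊤ χ) (hψ : IsChar ⊤ ψ) (hne : ∃ g, χ g ≠ 0)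
    (hfg : (hχ.pre 0).FG) :
    ∃ m₀ : ℤ, ∀ m, m₀ ≤ m → ((hχ.comb hψ m).pre 0).FG ∧ ∃ g, m * χ g + ψ g ≠ 0 := by
  classical
  have hmul : ∀ u v, χ (u * v) = χ u + χ v := fun u v => hχ u trivial v trivial
  have hinv : ∀ u, χ u⁻¹ = -χ u := fun u => hχ.inv trivial
  -- an element of minimal positive value
  have hex : ∃ d : ℕ, 0 < d ∧ ∃ t, χ t = d := by
    obtain ⟨g, hg⟩ := hne
    rcases lt_or_gt_of_ne hg with h | h
    · exact ⟨(χ g).natAbs, by omega, g⁻¹, by rw [hinv]; omega⟩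
    · exact ⟨(χ g).natAbs, by omega, g, by omega⟩
  obtain ⟨hd0, t, ht⟩ := Nat.find_spec hex
  set d := Nat.find hex with hd
  have hdvd : ∀ g, (d : ℤ) ∣ χ g := by
    intro g
    by_contra hn
    have h1 : 0 < χ g % d := by
      have := Int.emod_nonneg (χ g) (b := d) (by omega)
      have h2 : χ g % d ≠ 0 := fun h => hn (Int.dvd_of_emod_eq_zero h)
      omega
    have h2 : χ g % d < d := Int.emod_lt_of_pos _ (by omega)
    have h3 : χ (g * t ^ (-(χ g / d))) = χ g % d := by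
      rw [hmul, hχ.zpow trivial, ht, Int.emod_def]; ring
    have := Nat.find_min hex (m := (χ g % d).natAbs) (by omega)
    exact this ⟨by omega, _, by rw [h3]; omega⟩
  obtain ⟨S₀, hS₀, hfin⟩ := (Subgroup.fg_iff _).mp hfg
  let S : Set G := S₀ ∪ S₀⁻¹
  have hSfin : S.Finite := hfin.union hfin.inv
  have hS : ∀ s ∈ S, s⁻¹ ∈ S := by
    rintro s (h | h)
    · exact Or.inr (by simpa using h)
    · exact Or.inl h
  have hSK : ∀ s ∈ S, χ s = 0 := by
    rintro s (h | h)
    · exact (hχ.mem_pre_zero.mp (hS₀ ▸ Subgroup.subset_closure h)).2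
    · have h' : s⁻¹ ∈ S₀ := h
      have := (hχ.mem_pre_zero.mp (hS₀ ▸ Subgroup.subset_closure h')).2
      rw [hinv] at this
      omega
  have hlist : ∀ k, χ k = 0 → ∃ l : List G, (∀ x ∈ l, x ∈ S) ∧ l.prod = k := by
    intro k hk
    have : k ∈ Subgroup.closure S₀ := hS₀ ▸ hχ.mem_pre_zero.mpr ⟨trivial, hk⟩
    have h2 : k ∈ Submonoid.closure (S₀ ∪ S₀⁻¹) := by
      rw [← Subgroup.closure_toSubmonoid]; exact this
    obtain ⟨l, hl, rfl⟩ := Submonoid.exists_list_of_mem_closure h2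
    exact ⟨l, hl, rfl⟩
  have hLex : ∀ u : G, ∃ L : ℕ, ∀ s ∈ S, ∃ l : List G, (∀ x ∈ l, x ∈ S) ∧ l.prod = u * s * u⁻¹ ∧
      l.length ≤ L := by
    intro u
    have h1 : ∀ s ∈ S, ∃ l : List G, (∀ x ∈ l, x ∈ S) ∧ l.prod = u * s * u⁻¹ := by
      intro s hs
      apply hlist
      rw [hmul, hmul, hinv, hSK s hs]; ring
    choose! f hf using h1
    obtain ⟨L, hL⟩ := (hSfin.image (fun s => (f s).length)).bddAbove
    exact ⟨L, fun s hs => ⟨f s, (hf s hs).1, (hf s hs).2, hL ⟨s, hs, rfl⟩⟩⟩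
  obtain ⟨L₁, hL₁⟩ := hLex t
  obtain ⟨L₂, hL₂⟩ := hLex t⁻¹
  obtain ⟨B₀, hB₀⟩ := (hSfin.image (fun s => (ψ s).natAbs)).bddAbove
  let L := max L₁ L₂
  let B : ℤ := B₀
  have hB0 : 0 ≤ B := by positivity
  refine ⟨B * L + |ψ t| + 1, fun m hm => ?_⟩
  have hBL : 0 ≤ B * (L : ℤ) := by positivity
  set χ' : G → ℤ := fun g => m * χ g + ψ g with hχ'def
  have hχ' : IsChar ⊤ χ' := hχ.comb hψ m
  have hB : ∀ s ∈ S, |χ' s| ≤ B := by
    intro s hs
    have : (ψ s).natAbs ≤ B₀ := hB₀ ⟨s, hs, rfl⟩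
    simp only [χ', hSK s hs, mul_zero, zero_add, B]
    rw [← Int.natCast_natAbs]
    exact_mod_cast this
  have hD : B * L < χ' t := by
    simp only [χ', ht]
    have h1 := neg_abs_le (ψ t)
    have h2 := abs_nonneg (ψ t)
    have h3 : m ≤ m * d := le_mul_of_one_le_right (by omega) (by omega)
    omega
  refine ⟨?_, t, by change χ' t ≠ 0; omega⟩
  let A : Set G := {x | x ∈ S ∨ x = t ∨ x = t⁻¹}
  have hAfin : A.Finite := hSfin.union ((Set.finite_singleton t).union (Set.finite_singleton t⁻¹))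
  apply fg_of_reach hAfin hχ' (χ' t + B + B * L)
  intro g hg
  have hreach : Reach A (fun _ => True) 1 g := by
    obtain ⟨j, hj⟩ := hdvd g
    obtain ⟨l, hl, hprod⟩ := hlist (g * t ^ (-j)) (by
      rw [hmul, hχ.zpow trivial, ht, hj]; ring)
    have h1 : ∀ (l : List G), (∀ x ∈ l, x ∈ A) → ∀ u, Reach A (fun _ => True) u (u * l.prod) := by
      intro l hl
      induction l with
      | nil =>
        intro u
        rw [List.prod_nil, mul_one]
        exact Relation.ReflTransGen.refl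
      | cons s l ih =>
        intro u
        rw [List.prod_cons, ← mul_assoc]
        exact Relation.ReflTransGen.head ⟨trivial, trivial, by simpa using hl s (by simp)⟩
          (ih (fun x hx => hl x (by simp [hx])) _)
    have h2 : ∃ l' : List G, (∀ x ∈ l', x ∈ A) ∧ l'.prod = t ^ j := by
      obtain ⟨k, rfl | rfl⟩ := Int.eq_nat_or_neg j
      · exact ⟨List.replicate k t, fun x hx => Or.inr (Or.inl (List.eq_of_mem_replicate hx)),
          by simp⟩
      · exact ⟨List.replicate k t⁻¹, fun x hx => Or.inr (Or.inr (List.eq_of_mem_replicate hx)),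
          by simp⟩
    obtain ⟨l', hl', hprod'⟩ := h2
    have := h1 (l ++ l') (by
      intro x hx
      rcases List.mem_append.mp hx with h | h
      · exact Or.inl (hl x h)
      · exact hl' x h) 1
    rw [List.prod_append, hprod, hprod'] at this
    simpa using this
  obtain ⟨n, hn⟩ := reach_bounded (χ := χ') hreach
  have hL₁' : ∀ s ∈ S, ∃ l : List G, (∀ x ∈ l, x ∈ S) ∧ l.prod = t * s * t⁻¹ ∧ l.length ≤ L := by
    intro s hs
    obtain ⟨l, h1, h2, h3⟩ := hL₁ s hs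
    exact ⟨l, h1, h2, h3.trans (le_max_left _ _)⟩
  have hL₂' : ∀ s ∈ S, ∃ l : List G, (∀ x ∈ l, x ∈ S) ∧ l.prod = t⁻¹ * s * t⁻¹⁻¹ ∧
      l.length ≤ L := by
    intro s hs
    obtain ⟨l, h1, h2, h3⟩ := hL₂ s hs
    exact ⟨l, h1, h2, h3.trans (le_max_right _ _)⟩
  have s1 := push_down_all hS hχ' hB0 hB hL₁' hD (A := A) (fun _ => Iff.rfl) (a := -(n : ℤ))
    (by omega) hχ'.one hg n (hn.mono (fun x hx => ⟨hx.1, by omega⟩))
  have hneg : IsChar ⊤ (fun g => -χ' g) := by
    intro a _ b _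
    simp only [hχ' a trivial b trivial]
    ring
  have hti : χ' t⁻¹ = -χ' t := hχ'.inv trivial
  have s2 := push_down_all (χ := fun g => -χ' g) hS hneg hB0 (by simpa using hB) hL₂'
    (by simp only [hti]; omega) (A := A) (fun x => by simp [A]; tauto)
    (a := -(χ' t + B + B * L)) (by omega) (x := 1) (y := g) (by simp [hχ'.one]) (by simp [hg]) n
    (s1.mono (fun x hx => by simp only [hti]; omega))
  exact s2.mono (fun x hx => by simp only [hti] at hx; omega)

end Pool.Agent.Lib.MP_64528c_al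
end

-- part Pool.Agent.Lib.MP_64528c_al.Vertex
section

/-!
Vertex group lemmas: normal finite index subgroups with controlled intersections with cyclic
virtual retracts, and fibering characters which do not vanish on finitely many given elements.
-/

set_option autoImplicit false

namespace Pool.Agent.Lib.MP_64528c_al

variable {G : Type*} [Group G]

lemma fg_map {H : Type*} [Group H] {P : Subgroup G} (h : P.FG) (f : G →* H) : (P.map f).FG := by
  obtain ⟨S, hS, hfin⟩ := (Subgroup.fg_iff _).mp h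
  rw [Subgroup.fg_iff]
  exact ⟨f '' S, by rw [← MonoidHom.map_closure, hS], hfin.image _⟩

lemma fg_of_map {H : Type*} [Group H] {P : Subgroup G} (f : G →* H) (hf : Function.Injective f)
    (h : (P.map f).FG) : P.FG := by
  rw [Subgroup.fg_iff_submonoid_fg] at h ⊢
  exact Submonoid.FG.map_injective f hf h

lemma fg_inf_of_finiteIndex {P N : Subgroup G} [N.FiniteIndex] (h : P.FG) : (P ⊓ N).FG := by
  have : Group.FG P := (Group.fg_iff_subgroup_fg P).mpr h
  have h2 : Group.FG (N.subgroupOf P) := inferInstance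
  have h3 := fg_map ((Group.fg_iff_subgroup_fg _).mp h2) P.subtype
  rwa [Subgroup.subgroupOf_map_subtype, inf_comm] at h3

lemma IsChar.sub {K : Subgroup G} {ψ : G → ℤ} (h : IsChar K ψ) :
    IsChar (⊤ : Subgroup K) (fun g : K => ψ g) :=
  fun a _ b _ => h a a.2 b b.2

lemma IsChar.map_pre {K : Subgroup G} {ψ : G → ℤ} (h : IsChar K ψ) (n : ℤ) :
    (h.sub.pre n).map K.subtype = h.pre n := by
  ext g
  constructor
  · rintro ⟨x, hx, rfl⟩
    exact ⟨x.2, hx.2⟩
  · rintro ⟨h1, h2⟩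
    exact ⟨⟨g, h1⟩, ⟨trivial, h2⟩, rfl⟩

lemma IsChar.finiteIndex_pre {K : Subgroup G} [K.FiniteIndex] {ψ : G → ℤ} (h : IsChar K ψ)
    {n : ℕ} (hn : 0 < n) : (h.pre n).FiniteIndex := by
  have : NeZero n := ⟨hn.ne'⟩
  let f : K →* Multiplicative (ZMod n) :=
    { toFun := fun g => Multiplicative.ofAdd ((ψ g : ℤ) : ZMod n)
      map_one' := by simp [h.one]
      map_mul' := fun a b => by
        simp only [Subgroup.coe_mul, h a a.2 b b.2, Int.cast_add, ofAdd_add] }
  have e : h.sub.pre n = f.ker := by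
    ext g
    simp [IsChar.mem_pre, f, ZMod.intCast_zmod_eq_zero_iff_dvd]
  rw [← h.map_pre, e]
  constructor
  rw [Subgroup.index_map_subtype]
  exact mul_ne_zero Subgroup.FiniteIndex.index_ne_zero Subgroup.FiniteIndex.index_ne_zero

theorem open_sub {N : Subgroup G} {χ ψ : G → ℤ} (hχ : IsChar N χ) (hψ : IsChar N ψ)
    (hne : ∃ g ∈ N, χ g ≠ 0) (hfg : (hχ.pre 0).FG) :
    ∃ m₀ : ℤ, ∀ m, m₀ ≤ m → ((hχ.comb hψ m).pre 0).FG ∧ ∃ g ∈ N, m * χ g + ψ g ≠ 0 := by
  obtain ⟨g, hg, hg'⟩ := hne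
  obtain ⟨m₀, hm₀⟩ := open_top hχ.sub hψ.sub ⟨⟨g, hg⟩, hg'⟩
    (fg_of_map N.subtype N.subtype_injective (by rwa [hχ.map_pre]))
  refine ⟨m₀, fun m hm => ?_⟩
  obtain ⟨h1, x, hx⟩ := hm₀ m hm
  refine ⟨?_, x, x.2, hx⟩
  rw [← (hχ.comb hψ m).map_pre]
  exact fg_map h1 _

theorem exists_good_char {N : Subgroup G} {χ : G → ℤ} (hχ : IsChar N χ)
    (hne : ∃ g ∈ N, χ g ≠ 0) (hfg : (hχ.pre 0).FG) {T : Set G} (hT : T.Finite)
    (hTψ : ∀ x ∈ T, ∃ ψ : G → ℤ, IsChar N ψ ∧ ψ x ≠ 0) :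
    ∃ (χ' : G → ℤ) (h : IsChar N χ'), (h.pre 0).FG ∧ (∃ g ∈ N, χ' g ≠ 0) ∧ ∀ x ∈ T, χ' x ≠ 0 := by
  induction T, hT using Set.Finite.induction_on with
  | empty => exact ⟨χ, hχ, hfg, hne, by simp⟩
  | @insert y T _ hT ih =>
    obtain ⟨χ₁, h₁, hfg₁, hne₁, hT₁⟩ := ih (fun x hx => hTψ x (Or.inr hx))
    obtain ⟨ψ, hψ, hy⟩ := hTψ y (Or.inl rfl)
    obtain ⟨m₀, hm₀⟩ := open_sub h₁ hψ hne₁ hfg₁
    obtain ⟨B, hB⟩ := ((hT.insert y).image (fun s => |ψ s|)).bddAbove
    have hB' : ∀ x ∈ insert y T, |ψ x| ≤ B := fun x hx => hB ⟨x, hx, rfl⟩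
    obtain ⟨a1, a2⟩ := hm₀ (max m₀ (B + 1)) (le_max_left _ _)
    refine ⟨_, h₁.comb hψ _, a1, a2, fun x hx => ?_⟩
    have hx' := abs_le.mp (hB' x hx)
    have hm : B + 1 ≤ max m₀ (B + 1) := le_max_right _ _
    generalize max m₀ (B + 1) = m at hm
    by_cases h0 : χ₁ x = 0
    · rcases hx with rfl | hx
      · simpa [h0] using hy
      · exact absurd h0 (hT₁ x hx)
    · intro h
      rcases lt_or_gt_of_ne h0 with h2 | h2
      · nlinarith
      · nlinarith

lemma exists_gcd (E : Set ℤ) : ∃ d : ℕ, (∀ e ∈ E, (d : ℤ) ∣ e) ∧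
    ∀ n q : ℤ, (∀ e ∈ E, n ∣ q * e) → n ∣ q * d := by
  obtain ⟨a, ha⟩ := Int.subgroup_cyclic (AddSubgroup.closure E)
  refine ⟨a.natAbs, fun e he => ?_, fun n q h => ?_⟩
  · have : e ∈ AddSubgroup.closure E := AddSubgroup.subset_closure he
    rw [ha, AddSubgroup.mem_closure_singleton] at this
    obtain ⟨k, rfl⟩ := this
    simp
  · have h1 : a ∈ AddSubgroup.closure E := by
      rw [ha]; exact AddSubgroup.subset_closure rfl
    have h2 : ∀ x ∈ AddSubgroup.closure E, n ∣ q * x := by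
      intro x hx
      induction hx using AddSubgroup.closure_induction with
      | mem x hx => exact h x hx
      | zero => simp
      | add x y _ _ hx hy => rw [mul_add]; exact dvd_add hx hy
      | neg x _ hx => simpa using hx
    have h3 := h2 a h1
    rcases Int.natAbs_eq a with h | h
    · rwa [← h]
    · rw [h] at h3; simpa using h3

lemma exists_period (N : Subgroup G) [N.FiniteIndex] (c : G) :
    ∃ k : ℕ, 0 < k ∧ ∀ m : ℤ, c ^ m ∈ N ↔ (k : ℤ) ∣ m := by
  let S : AddSubgroup ℤ :=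
    { carrier := {m | c ^ m ∈ N}
      zero_mem' := by simp
      add_mem' := fun {a b} ha hb => by
        simp only [Set.mem_ofPred_eq, zpow_add] at *
        exact N.mul_mem ha hb
      neg_mem' := fun {a} ha => by
        simp only [Set.mem_ofPred_eq, zpow_neg] at *
        exact N.inv_mem ha }
  obtain ⟨a, ha⟩ := Int.subgroup_cyclic S
  have key : ∀ m : ℤ, c ^ m ∈ N ↔ (a.natAbs : ℤ) ∣ m := by
    intro m
    change m ∈ S ↔ _
    rw [ha, AddSubgroup.mem_closure_singleton, Int.natAbs_dvd]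
    constructor
    · rintro ⟨k, rfl⟩; simp
    · rintro ⟨k, rfl⟩; exact ⟨k, by simp [mul_comm]⟩
  refine ⟨a.natAbs, ?_, key⟩
  obtain ⟨n, hn, -, hcn⟩ := Subgroup.exists_pow_mem_of_index_ne_zero
    (Subgroup.FiniteIndex.index_ne_zero (H := N)) c
  have := (key n).mp (by simpa using hcn)
  by_contra h0
  have h1 : a.natAbs = 0 := by omega
  rw [h1] at this
  simp at this
  omega

theorem exists_family {I : Type*} [Finite I] (c : I → G) (K : I → Subgroup G)
    [∀ i, (K i).FiniteIndex] (ψ : I → G → ℤ) (hψ : ∀ i, IsChar (K i) (ψ i))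
    (hc : ∀ i, c i ∈ K i) (h1 : ∀ i, ψ i (c i) = 1) :
    ∃ (D : ℕ) (r : I → ℕ), 0 < D ∧ (∀ i, 0 < r i) ∧ ∀ n : ℕ, 0 < n → D ∣ n →
      ∃ N : Subgroup G, N.Normal ∧ N.FiniteIndex ∧ (∀ i, N ≤ K i) ∧
        ∀ i (m : ℤ), c i ^ m ∈ N ↔ ((n * r i : ℕ) : ℤ) ∣ m := by
  classical
  have : Fintype I := Fintype.ofFinite I
  let N : ℕ → Subgroup G := fun n => (⨅ i, (hψ i).pre n).normalCore
  have hN : ∀ n g, g ∈ N n ↔ ∀ b j, b * g * b⁻¹ ∈ K j ∧ (n : ℤ) ∣ ψ j (b * g * b⁻¹) := by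
    intro n g
    change (∀ b, b * g * b⁻¹ ∈ ⨅ i, (hψ i).pre n) ↔ _
    simp [Subgroup.mem_iInf, IsChar.mem_pre]
  have hfi : ∀ n, 0 < n → (N n).FiniteIndex := by
    intro n hn
    have : (⨅ i, (hψ i).pre n).FiniteIndex :=
      Subgroup.finiteIndex_iInf (fun i => (hψ i).finiteIndex_pre hn)
    infer_instance
  have := hfi 1 one_pos
  choose k hk0 hk using fun i => exists_period (N 1) (c i)
  choose d hd hd' using fun i =>
    exists_gcd {e | ∃ b j, e = ψ j (b * c i ^ (k i : ℤ) * b⁻¹)}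
  have hdk : ∀ i, d i ∣ k i := by
    intro i
    have := hd i _ ⟨1, i, rfl⟩
    rw [one_mul, inv_one, mul_one, (hψ i).zpow (hc i), h1, mul_one] at this
    exact_mod_cast this
  choose r hr using hdk
  have hd0 : ∀ i, 0 < d i := fun i => Nat.pos_of_mul_pos_right (hr i ▸ hk0 i)
  have hr0 : ∀ i, 0 < r i := fun i => Nat.pos_of_mul_pos_left (hr i ▸ hk0 i)
  refine ⟨∏ i, d i, r, Finset.prod_pos (fun i _ => hd0 i), hr0, fun n hn hDn => ?_⟩
  refine ⟨N n, inferInstance, hfi n hn, fun i g hg => ?_, fun i m => ?_⟩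
  · simpa using (((hN n g).mp hg) 1 i).1
  obtain ⟨n', hn'⟩ : d i ∣ n := (Finset.dvd_prod_of_mem d (Finset.mem_univ i)).trans hDn
  have hkN : ∀ b j, b * c i ^ (k i : ℤ) * b⁻¹ ∈ K j := fun b j =>
    (((hN 1 _).mp ((hk i _).mpr dvd_rfl)) b j).1
  have hval : ∀ b j (q : ℤ), ψ j (b * c i ^ ((k i : ℤ) * q) * b⁻¹) =
      q * ψ j (b * c i ^ (k i : ℤ) * b⁻¹) := by
    intro b j q
    rw [← (hψ j).zpow (hkN b j), conj_zpow, zpow_mul]
  have hd0' : (d i : ℤ) ≠ 0 := by exact_mod_cast (hd0 i).ne'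
  constructor
  · intro h
    have h' : c i ^ m ∈ N 1 := by
      rw [hN] at h ⊢
      exact fun b j => ⟨(h b j).1, by simp⟩
    obtain ⟨q, rfl⟩ := (hk i m).mp h'
    have h2 := hd' i n q (by
      rintro _ ⟨b, j, rfl⟩
      rw [← hval]
      exact (((hN n _).mp h) b j).2)
    rw [hn'] at h2
    push_cast at h2
    rw [mul_comm q] at h2
    obtain ⟨s, rfl⟩ := Int.dvd_of_mul_dvd_mul_left hd0' h2
    rw [hr i, hn']
    push_cast
    exact ⟨s, by ring⟩
  · rintro ⟨s, rfl⟩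
    have e : ((n * r i : ℕ) : ℤ) * s = (k i : ℤ) * (n' * s) := by
      rw [hr i, hn']; push_cast; ring
    rw [e, hN]
    intro b j
    refine ⟨?_, ?_⟩
    · rw [zpow_mul, ← conj_zpow]
      exact (K j).zpow_mem (hkN b j) _
    · rw [hval]
      obtain ⟨u, hu⟩ := hd i _ ⟨b, j, rfl⟩
      rw [hu, hn']
      push_cast
      exact ⟨s * u, by ring⟩

end Pool.Agent.Lib.MP_64528c_al
end

-- part Pool.Agent.Lib.MP_64528c_al.Tree
section

/-!
Induction over finite trees, and finite generation of point stabilisers in a join of two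
subgroups sharing a subgroup with finitely many orbits.
-/

set_option autoImplicit false

namespace Pool.Agent.Lib.MP_64528c_al

theorem tree_induction {V : Type*} [Finite V] {Γ : SimpleGraph V} (hΓ : Γ.IsTree)
    (P : Set V → Prop) (v₀ : V) (base : P {v₀})
    (step : ∀ (S : Set V) (v w : V), v ∈ S → w ∉ S → Γ.Adj v w →
      (∀ v' ∈ S, Γ.Adj v' w → v' = v) → P S → P (insert w S)) : P Set.univ := by
  classical
  have key : ∀ n : ℕ, n < Nat.card V → ∃ S : Set V, S.ncard = n + 1 ∧ P S ∧ v₀ ∈ S ∧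
      ∀ a ∈ S, ∃ p : Γ.Walk v₀ a, ∀ x ∈ p.support, x ∈ S := by
    intro n
    induction n with
    | zero =>
      intro _
      refine ⟨{v₀}, by simp, base, rfl, ?_⟩
      rintro a rfl
      exact ⟨SimpleGraph.Walk.nil, by simp⟩
    | succ n ih =>
      intro hn
      obtain ⟨S, hS, hP, h0, hw⟩ := ih (by omega)
      have hne : S ≠ Set.univ := by
        rintro rfl
        rw [Set.ncard_univ] at hS
        omega
      obtain ⟨u, hu⟩ := (Set.ne_univ_iff_exists_notMem S).mp hne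
      obtain ⟨p⟩ := hΓ.connected.preconnected v₀ u
      obtain ⟨d, -, hd1, hd2⟩ := p.exists_boundary_dart S h0 hu
      refine ⟨insert d.snd S, ?_, step S d.fst d.snd hd1 hd2 d.adj ?_ hP, Or.inr h0, ?_⟩
      · rw [Set.ncard_insert_of_notMem hd2, hS]
      · intro v' hv' hadj
        by_contra hne'
        obtain ⟨p1, hp1⟩ := hw _ hd1
        obtain ⟨p2, hp2⟩ := hw _ hv'
        let q : Γ.Walk d.fst v' := p1.reverse.append p2
        have hq : ∀ x ∈ q.support, x ∈ S := by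
          intro x hx
          simp only [q, SimpleGraph.Walk.mem_support_append_iff, SimpleGraph.Walk.support_reverse,
            List.mem_reverse] at hx
          exact hx.elim (hp1 x) (hp2 x)
        let r : Γ.Walk d.fst v' :=
          SimpleGraph.Walk.cons d.adj (SimpleGraph.Walk.cons hadj.symm SimpleGraph.Walk.nil)
        have hr : r.IsPath := by
          simp only [r, SimpleGraph.Walk.cons_isPath_iff, SimpleGraph.Walk.IsPath.nil,
            SimpleGraph.Walk.support_nil, List.mem_singleton, true_and,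
            SimpleGraph.Walk.support_cons, List.mem_cons, List.not_mem_nil, or_false, not_or]
          exact ⟨hadj.ne.symm, d.adj.ne, fun h => hne' h.symm⟩
        have e := (hΓ.existsUnique_path d.fst v').unique hr q.bypass_isPath
        apply hd2
        apply hq
        apply q.support_bypass_subset_support
        rw [← e]
        simp [r]
      · rintro a (rfl | ha)
        · obtain ⟨p1, hp1⟩ := hw _ hd1
          refine ⟨p1.concat d.adj, fun x hx => ?_⟩
          simp only [SimpleGraph.Walk.support_concat, List.concat_eq_append, List.mem_append,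
            List.mem_singleton] at hx
          rcases hx with hx | rfl
          · exact Or.inr (hp1 x hx)
          · exact Or.inl rfl
        · obtain ⟨p1, hp1⟩ := hw _ ha
          exact ⟨p1, fun x hx => Or.inr (hp1 x hx)⟩
  have : Nonempty V := ⟨v₀⟩
  have hpos : 0 < Nat.card V := Nat.card_pos
  obtain ⟨S, hS, hP, -⟩ := key (Nat.card V - 1) (by omega)
  have : S = Set.univ := by
    rw [Set.eq_univ_iff_ncard, hS]
    omega
  rwa [← this]

open MulAction in
theorem fg_stab_sup {G Y : Type*} [Group G] [MulAction G Y] (A B C : Subgroup G) (hA : C ≤ A)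
    (hB : C ≤ B) {R : Set Y} (hR : R.Finite) (hC : ∀ y, ∃ c ∈ C, c • y ∈ R)
    (fA : ∀ y : Y, (A ⊓ stabilizer G y).FG) (fB : ∀ y : Y, (B ⊓ stabilizer G y).FG) (y₀ : Y) :
    ((A ⊔ B) ⊓ stabilizer G y₀).FG := by
  classical
  choose c hc hcR using hC
  let g : Y → G := fun r => if h : ∃ x ∈ A ⊔ B, x • y₀ = r then h.choose else 1
  have hg : ∀ r, (∃ x ∈ A ⊔ B, x • y₀ = r) → g r ∈ A ⊔ B ∧ g r • y₀ = r := by
    intro r h
    simp only [g, dif_pos h]
    exact h.choose_spec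
  let a : Subgroup G → Y → Y → G := fun H r r' => if h : ∃ x ∈ H, x • r = r' then h.choose else 1
  have ha : ∀ H r r', (∃ x ∈ H, x • r = r') → a H r r' ∈ H ∧ a H r r' • r = r' := by
    intro H r r' h
    simp only [a, dif_pos h]
    exact h.choose_spec
  choose SA hSA hSAf using fun y => (Subgroup.fg_iff _).mp (fA y)
  choose SB hSB hSBf using fun y => (Subgroup.fg_iff _).mp (fB y)
  let t : Y → G := fun y => (c y)⁻¹ * g (c y • y)
  let U : Subgroup G → (Y → Set G) → Set G := fun H S =>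
    ((fun p : Y × Y => (g p.2)⁻¹ * a H p.1 p.2 * g p.1) '' (R ×ˢ R)) ∪
      ⋃ r ∈ R, (fun s => (g r)⁻¹ * s * g r) '' S r
  have hU : ∀ H S, (∀ y, (S y).Finite) → (U H S).Finite := fun H S hS =>
    ((hR.prod hR).image _).union (hR.biUnion (fun r _ => (hS r).image _))
  let N := (A ⊔ B) ⊓ stabilizer G y₀
  let T : Set G := (insert (t y₀) (U A SA ∪ U B SB)) ∩ N
  have hT : T.Finite := (((hU A SA hSAf).union (hU B SB hSBf)).insert _).inter_of_left _
  have hcAB : ∀ y, c y ∈ A ⊔ B := fun y => Subgroup.mem_sup_left (hA (hc y))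
  have horb : ∀ x ∈ A ⊔ B, ∃ x' ∈ A ⊔ B, x' • y₀ = c (x • y₀) • x • y₀ := fun x hx =>
    ⟨c (x • y₀) * x, Subgroup.mul_mem _ (hcAB _) hx, by rw [mul_smul]⟩
  have ht0 : t y₀ ∈ Subgroup.closure T := by
    apply Subgroup.subset_closure
    refine ⟨Or.inl rfl, ?_⟩
    have h1 := hg _ (horb 1 (Subgroup.one_mem _))
    simp only [one_smul] at h1
    refine Subgroup.mem_inf.mpr ⟨Subgroup.mul_mem _ (Subgroup.inv_mem _ (hcAB _)) h1.1, ?_⟩
    rw [mem_stabilizer_iff, mul_smul, h1.2, inv_smul_smul]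
  have stepH : ∀ (H : Subgroup G) (S : Y → Set G), C ≤ H → H ≤ A ⊔ B →
      (∀ y, Subgroup.closure (S y) = H ⊓ stabilizer G y) → U H S ⊆ U A SA ∪ U B SB →
      ∀ h ∈ H, ∀ x ∈ A ⊔ B, (t ((h * x) • y₀))⁻¹ * h * t (x • y₀) ∈ Subgroup.closure T := by
    intro H S hCH hHAB hS hUU h hh x hx
    have hhx : h * x ∈ A ⊔ B := Subgroup.mul_mem _ (hHAB hh) hx
    set y := x • y₀ with hy
    set y' := (h * x) • y₀ with hy'
    have hr := hg _ (horb x hx)
    have hr' := hg _ (horb _ hhx)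
    rw [← hy] at hr
    rw [← hy'] at hr'
    set r := c y • y with hrdef
    set r' := c y' • y' with hr'def
    have hrR : r ∈ R := hcR y
    have hr'R : r' ∈ R := hcR y'
    let a' := c y' * h * (c y)⁻¹
    have ha'H : a' ∈ H := H.mul_mem (H.mul_mem (hCH (hc _)) hh) (H.inv_mem (hCH (hc _)))
    have ha'r : a' • r = r' := by
      simp only [a', hrdef, hr'def, mul_smul, inv_smul_smul, hy', hy]
    obtain ⟨h1, h2⟩ := ha H r r' ⟨a', ha'H, ha'r⟩
    have e : (t y')⁻¹ * h * t y =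
        ((g r')⁻¹ * a H r r' * g r) * ((g r)⁻¹ * ((a H r r')⁻¹ * a') * g r) := by
      simp only [t, a', ← hrdef, ← hr'def]
      group
    rw [e]
    refine Subgroup.mul_mem _ (Subgroup.subset_closure ⟨Or.inr (hUU (Or.inl
      ⟨(r, r'), ⟨hrR, hr'R⟩, rfl⟩)), ?_⟩) ?_
    · refine Subgroup.mem_inf.mpr ⟨Subgroup.mul_mem _ (Subgroup.mul_mem _
        (Subgroup.inv_mem _ hr'.1) (hHAB h1)) hr.1, ?_⟩
      rw [mem_stabilizer_iff, mul_smul, mul_smul, hr.2, h2, inv_smul_eq_iff, hr'.2]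
    · have hs : (a H r r')⁻¹ * a' ∈ Subgroup.closure (S r) := by
        rw [hS]
        refine Subgroup.mem_inf.mpr ⟨H.mul_mem (H.inv_mem h1) ha'H, ?_⟩
        rw [mem_stabilizer_iff, mul_smul, ha'r, inv_smul_eq_iff, h2]
      generalize (a H r r')⁻¹ * a' = s at hs
      induction hs using Subgroup.closure_induction with
      | mem s hs =>
        have hs' : s ∈ H ⊓ stabilizer G r := hS r ▸ Subgroup.subset_closure hs
        refine Subgroup.subset_closure ⟨Or.inr (hUU (Or.inr ?_)), ?_⟩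
        · exact Set.mem_biUnion hrR ⟨s, hs, rfl⟩
        · refine Subgroup.mem_inf.mpr ⟨Subgroup.mul_mem _ (Subgroup.mul_mem _
            (Subgroup.inv_mem _ hr.1) (hHAB hs'.1)) hr.1, ?_⟩
          have h3 : s • r = r := hs'.2
          rw [mem_stabilizer_iff, mul_smul, mul_smul, hr.2, h3, inv_smul_eq_iff, hr.2]
      | one => simp
      | mul s s' _ _ h1 h2 =>
        have := Subgroup.mul_mem _ h1 h2
        convert this using 1
        group
      | inv s _ h1 =>
        have := Subgroup.inv_mem _ h1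
        convert this using 1
        group
  have main : ∀ x ∈ A ⊔ B, (t (x • y₀))⁻¹ * x * t y₀ ∈ Subgroup.closure T := by
    intro x hx
    have hx' : x ∈ Subgroup.closure ((A : Set G) ∪ B) := by
      rwa [Subgroup.closure_union, Subgroup.closure_eq, Subgroup.closure_eq]
    have one : ∀ h, h ∈ A ∨ h ∈ B → ∀ x ∈ A ⊔ B, (t (x • y₀))⁻¹ * x * t y₀ ∈ Subgroup.closure T →
        (t ((h * x) • y₀))⁻¹ * (h * x) * t y₀ ∈ Subgroup.closure T := by
      intro h hh x hx ih
      have h1 : (t ((h * x) • y₀))⁻¹ * h * t (x • y₀) ∈ Subgroup.closure T := by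
        rcases hh with hh | hh
        · exact stepH A SA hA le_sup_left hSA Set.subset_union_left h hh x hx
        · exact stepH B SB hB le_sup_right hSB Set.subset_union_right h hh x hx
      have := Subgroup.mul_mem _ h1 ih
      convert this using 1
      group
    have hcl : ∀ x ∈ Subgroup.closure ((A : Set G) ∪ B), x ∈ A ⊔ B := by
      intro x hx
      rwa [Subgroup.closure_union, Subgroup.closure_eq, Subgroup.closure_eq] at hx
    clear hx
    induction hx' using Subgroup.closure_induction_left with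
    | one => simp
    | mul_left h hh x hx ih => exact one h hh x (hcl x hx) ih
    | inv_mul_cancel h hh x hx ih =>
      exact one h⁻¹ (hh.imp A.inv_mem B.inv_mem) x (hcl x hx) ih
  rw [Subgroup.fg_iff]
  refine ⟨T, le_antisymm ?_ ?_, hT⟩
  · rw [Subgroup.closure_le]
    exact fun x hx => hx.2
  · intro x hx
    have h1 := main x hx.1
    have h2 : x • y₀ = y₀ := hx.2
    rw [h2] at h1
    have := Subgroup.mul_mem _ (Subgroup.mul_mem _ ht0 h1) (Subgroup.inv_mem _ ht0)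
    convert this using 1
    group

end Pool.Agent.Lib.MP_64528c_al
end

-- part Pool.Agent.Lib.MP_64528c_al.Wr
section

/-!
Permutation actions with an integer cocycle, and how to glue two of them along a virtually
cyclic group.
-/

set_option autoImplicit false

namespace Pool.Agent.Lib.MP_64528c_al

universe u

/-- The wreath product of the integers with the symmetric group of `X`. -/
@[ext] structure Wr (X : Type u) where
  perm : Equiv.Perm X
  coc : X → ℤ

namespace Wr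

variable {X : Type u}

instance : Mul (Wr X) := ⟨fun a b => ⟨a.perm * b.perm, fun x => a.coc (b.perm x) + b.coc x⟩⟩
instance : One (Wr X) := ⟨⟨1, fun _ => 0⟩⟩
instance : Inv (Wr X) := ⟨fun a => ⟨a.perm⁻¹, fun x => -a.coc (a.perm⁻¹ x)⟩⟩

@[simp] lemma mul_perm (a b : Wr X) : (a * b).perm = a.perm * b.perm := rfl
@[simp] lemma mul_coc (a b : Wr X) (x : X) : (a * b).coc x = a.coc (b.perm x) + b.coc x := rfl
@[simp] lemma one_perm : (1 : Wr X).perm = 1 := rfl
@[simp] lemma one_coc (x : X) : (1 : Wr X).coc x = 0 := rfl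
@[simp] lemma inv_perm (a : Wr X) : (a⁻¹).perm = a.perm⁻¹ := rfl
@[simp] lemma inv_coc (a : Wr X) (x : X) : (a⁻¹).coc x = -a.coc (a.perm⁻¹ x) := rfl

instance : Group (Wr X) where
  mul_assoc a b c := by ext <;> simp [add_assoc]
  one_mul a := by ext <;> simp
  mul_one a := by ext <;> simp
  inv_mul_cancel a := by ext <;> simp

instance : MulAction (Wr X) (X × ℤ) where
  smul w y := (w.perm y.1, y.2 + w.coc y.1)
  one_smul y := by
    change ((1 : Wr X).perm y.1, y.2 + (1 : Wr X).coc y.1) = y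
    simp
  mul_smul a b y := by
    change ((a * b).perm y.1, y.2 + (a * b).coc y.1) =
      (a.perm (b.perm y.1), y.2 + b.coc y.1 + a.coc (b.perm y.1))
    simp [add_assoc, add_comm]

lemma smul_def (w : Wr X) (y : X × ℤ) : w • y = (w.perm y.1, y.2 + w.coc y.1) := rfl

/-- Elements fixing the point `x`. -/
def fix (x : X) : Subgroup (Wr X) where
  carrier := {w | w.perm x = x}
  one_mem' := rfl
  mul_mem' := fun {a b} ha hb => by
    simp only [Set.mem_ofPred_eq, mul_perm, Equiv.Perm.mul_apply] at *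
    rw [hb, ha]
  inv_mem' := fun {a} ha => by
    simp only [Set.mem_ofPred_eq, inv_perm] at *
    exact Equiv.Perm.inv_eq_iff_eq.mpr ha.symm

lemma mem_fix {x : X} {w : Wr X} : w ∈ fix x ↔ w.perm x = x := Iff.rfl

lemma isChar_fix (x : X) : IsChar (fix x) (fun w => w.coc x) := by
  intro a _ b hb
  simp only [mul_coc, mem_fix.mp hb]

/-- Elements fixing `x` with vanishing cocycle at `x`. -/
def fix0 (x : X) : Subgroup (Wr X) := (isChar_fix x).pre 0

lemma mem_fix0 {x : X} {w : Wr X} : w ∈ fix0 x ↔ w.perm x = x ∧ w.coc x = 0 :=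
  (isChar_fix x).mem_pre_zero

lemma stabilizer_eq (y : X × ℤ) : MulAction.stabilizer (Wr X) y = fix0 y.1 := by
  ext w
  rw [MulAction.mem_stabilizer_iff, smul_def, mem_fix0, Prod.ext_iff]
  simp

/-- Take copies of a cocycle action, rescale them and change coordinates. -/
def transfer {X₁ O : Type u} (e : X₁ × O ≃ X) (μ : O → ℤ) (f : X₁ → ℤ) : Wr X₁ →* Wr X where
  toFun w := ⟨e.permCongr (w.perm.prodCongr (Equiv.refl O)),
    fun x => μ (e.symm x).2 *
      (w.coc (e.symm x).1 - f (w.perm (e.symm x).1) + f (e.symm x).1)⟩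
  map_one' := by
    ext x
    · simp
    · simp
  map_mul' a b := by
    ext x
    · simp [Prod.map]
    · simp [Prod.map]; ring

lemma transfer_perm {X₁ O : Type u} (e : X₁ × O ≃ X) (μ : O → ℤ) (f : X₁ → ℤ) (w : Wr X₁)
    (x : X₁) (o : O) : (transfer e μ f w).perm (e (x, o)) = e (w.perm x, o) := by
  simp [transfer]

lemma transfer_coc {X₁ O : Type u} (e : X₁ × O ≃ X) (μ : O → ℤ) (f : X₁ → ℤ) (w : Wr X₁)
    (x : X₁) (o : O) :
    (transfer e μ f w).coc (e (x, o)) = μ o * (w.coc x - f (w.perm x) + f x) := by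
  simp [transfer]

end Wr

open Wr

/-- Homomorphisms of wreath products which preserve stabilisers and rescale their characters. -/
def Adm {X X' : Type u} (T : Wr X →* Wr X') : Prop :=
  ∀ x', ∃ x, ∃ l : ℤ, l ≠ 0 ∧ ∀ w : Wr X,
    ((T w).perm x' = x' ↔ w.perm x = x) ∧ (w.perm x = x → (T w).coc x' = l * w.coc x)

lemma adm_transfer {X X₁ O : Type u} (e : X₁ × O ≃ X) (μ : O → ℤ) (hμ : ∀ o, μ o ≠ 0)
    (f : X₁ → ℤ) : Adm (transfer e μ f) := by
  intro x'
  obtain ⟨⟨x, o⟩, rfl⟩ := e.surjective x'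
  refine ⟨x, μ o, hμ o, fun w => ⟨?_, fun h => ?_⟩⟩
  · rw [transfer_perm]; simp
  · rw [transfer_coc, h]; ring

/-- The properties of a vertex group action that are needed. -/
def Good {H : Type*} [Group H] {X : Type u} (N : Subgroup H) (Z : Set H) (ρ : H →* Wr X) : Prop :=
  ∀ x, (fix x).comap ρ = N ∧ ((fix0 x).comap ρ).FG ∧ (∀ z ∈ Z, (ρ z).coc x ≠ 0) ∧
    ∃ h ∈ N, (ρ h).coc x ≠ 0

lemma Good.adm {H : Type*} [Group H] {X X' : Type u} {N : Subgroup H} {Z : Set H}
    (hZ : ∀ z ∈ Z, z ∈ N) {ρ : H →* Wr X} (h : Good N Z ρ) {T : Wr X →* Wr X'} (hT : Adm T) :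
    Good N Z (T.comp ρ) := by
  intro x'
  obtain ⟨x, l, hl, hx⟩ := hT x'
  obtain ⟨h1, h2, h3, g, hg, h4⟩ := h x
  have hN : ∀ g ∈ N, (ρ g).perm x = x := fun g hg => by
    rw [← h1] at hg; exact hg
  refine ⟨?_, ?_, fun z hz => ?_, g, hg, ?_⟩
  · rw [← h1]
    ext g
    exact (hx (ρ g)).1
  · convert h2 using 1
    ext g
    simp only [Subgroup.mem_comap, mem_fix0, MonoidHom.comp_apply, (hx (ρ g)).1]
    refine and_congr_right (fun hg => ?_)
    rw [(hx (ρ g)).2 hg]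
    simp [hl]
  · rw [MonoidHom.comp_apply, (hx _).2 (hN z (hZ z hz))]
    exact mul_ne_zero hl (h3 z hz)
  · rw [MonoidHom.comp_apply, (hx _).2 (hN g hg)]
    exact mul_ne_zero hl h4

lemma out_mem {G : Type*} [Group G] (N : Subgroup G) (g : G) (x : G ⧸ N) :
    (g • x).out⁻¹ * g * x.out ∈ N := by
  rw [mul_assoc, ← QuotientGroup.eq, QuotientGroup.out_eq']
  conv_lhs => rw [← QuotientGroup.out_eq' x]
  rfl

theorem normal_form {C X : Type u} [Group C] [Finite X] [Nonempty X] (z : C)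
    (m : C → C ⧸ Subgroup.zpowers z → ℤ) (hm : ∀ γ k, (γ • k).out⁻¹ * γ * k.out = z ^ m γ k)
    (ρ : C →* Wr X) (hst : ∀ x, (fix x).comap ρ = Subgroup.zpowers z)
    (hz : ∀ x, (ρ z).coc x ≠ 0) :
    ∃ (O : Type u) (_ : Finite O) (_ : Nonempty O) (μ : O → ℤ)
      (e : (C ⧸ Subgroup.zpowers z) × O ≃ X) (f : X → ℤ), (∀ o, μ o ≠ 0) ∧
      ∀ γ k o, (ρ γ).perm (e (k, o)) = e (γ • k, o) ∧
        (ρ γ).coc (e (k, o)) - f (e (γ • k, o)) + f (e (k, o)) = μ o * m γ k := by
  let s : Setoid X :=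
    { r := fun x y => ∃ γ, (ρ γ).perm y = x
      iseqv := ⟨fun x => ⟨1, by simp⟩,
        fun ⟨γ, h⟩ => ⟨γ⁻¹, by simp [← h]⟩,
        fun ⟨γ, h⟩ ⟨δ, h'⟩ => ⟨γ * δ, by simp [h, h']⟩⟩ }
  have hfix : ∀ γ x, (ρ γ).perm x = x ↔ γ ∈ Subgroup.zpowers z := fun γ x => by
    rw [← hst x]; rfl
  let F : (C ⧸ Subgroup.zpowers z) × Quotient s → X := fun p => (ρ p.1.out).perm p.2.out
  have hF : Function.Bijective F := by
    constructor
    · rintro ⟨k, o⟩ ⟨k', o'⟩ h
      simp only [F] at h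
      have h1 : (ρ (k.out⁻¹ * k'.out)).perm o'.out = o.out := by
        simp [← h]
      have h2 : o = o' := by
        rw [← Quotient.out_eq o, ← Quotient.out_eq o']
        exact Quotient.sound ⟨_, h1⟩
      subst h2
      rw [hfix, ← QuotientGroup.eq, QuotientGroup.out_eq', QuotientGroup.out_eq'] at h1
      rw [h1]
    · intro x
      obtain ⟨γ, hγ⟩ : s.r x (Quotient.mk s x).out := s.symm (Quotient.mk_out x)
      refine ⟨((γ : C ⧸ Subgroup.zpowers z), Quotient.mk s x), ?_⟩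
      simp only [F]
      obtain ⟨h, hh⟩ := QuotientGroup.mk_out_eq_mul (Subgroup.zpowers z) γ
      rw [hh, map_mul, mul_perm, Equiv.Perm.mul_apply, (hfix _ _).mpr h.2, hγ]
  let e := Equiv.ofBijective F hF
  have he : ∀ k o, e (k, o) = (ρ k.out).perm o.out := fun _ _ => rfl
  refine ⟨Quotient s, inferInstance, ⟨Quotient.mk s (Classical.arbitrary X)⟩,
    fun o => (ρ z).coc o.out, e,
    fun x => (ρ (e.symm x).1.out).coc (e.symm x).2.out, fun o => hz _, fun γ k o => ?_⟩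
  have h1 : γ * k.out = (γ • k).out * z ^ m γ k := by
    rw [← hm]; group
  have h2 : (ρ (z ^ m γ k)).perm o.out = o.out :=
    (hfix _ _).mpr (Subgroup.zpow_mem_zpowers _ _)
  have h3 : (ρ (z ^ m γ k)).coc o.out = m γ k * (ρ z).coc o.out := by
    rw [map_zpow]
    exact (isChar_fix o.out).zpow ((hfix _ _).mpr (Subgroup.mem_zpowers _)) _
  have h4 := congrArg ρ h1
  rw [map_mul, map_mul] at h4
  constructor
  · have := congrArg (fun w : Wr X => w.perm o.out) h4
    simp only [mul_perm, Equiv.Perm.mul_apply, h2] at this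
    rw [he, he, this]
  · have := congrArg (fun w : Wr X => w.coc o.out) h4
    simp only [mul_coc, h2, h3] at this
    simp only [Equiv.symm_apply_apply]
    rw [he]
    linarith

theorem glue {C X₁ X₂ : Type u} [Group C] [Finite X₁] [Nonempty X₁] [Finite X₂] [Nonempty X₂]
    (z : C) (ρ₁ : C →* Wr X₁) (hst₁ : ∀ x, (fix x).comap ρ₁ = Subgroup.zpowers z)
    (hz₁ : ∀ x, (ρ₁ z).coc x ≠ 0) (ρ₂ : C →* Wr X₂)
    (hst₂ : ∀ x, (fix x).comap ρ₂ = Subgroup.zpowers z) (hz₂ : ∀ x, (ρ₂ z).coc x ≠ 0) :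
    ∃ (X : Type u) (_ : Finite X) (_ : Nonempty X) (T₁ : Wr X₁ →* Wr X) (T₂ : Wr X₂ →* Wr X),
      Adm T₁ ∧ Adm T₂ ∧ T₁.comp ρ₁ = T₂.comp ρ₂ := by
  have hm : ∀ γ (k : C ⧸ Subgroup.zpowers z), ∃ m : ℤ, (γ • k).out⁻¹ * γ * k.out = z ^ m := by
    intro γ k
    obtain ⟨m, hm⟩ := Subgroup.mem_zpowers_iff.mp (out_mem (Subgroup.zpowers z) γ k)
    exact ⟨m, hm.symm⟩
  choose m hm using hm
  obtain ⟨O₁, _, _, μ₁, e₁, f₁, hμ₁, h₁⟩ := normal_form z m hm ρ₁ hst₁ hz₁
  obtain ⟨O₂, _, _, μ₂, e₂, f₂, hμ₂, h₂⟩ := normal_form z m hm ρ₂ hst₂ hz₂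
  let E₁ : X₁ × O₂ ≃ (C ⧸ Subgroup.zpowers z) × O₁ × O₂ :=
    (e₁.symm.prodCongr (Equiv.refl O₂)).trans (Equiv.prodAssoc _ _ _)
  let E₂ : X₂ × O₁ ≃ (C ⧸ Subgroup.zpowers z) × O₁ × O₂ :=
    ((e₂.symm.prodCongr (Equiv.refl O₁)).trans (Equiv.prodAssoc _ _ _)).trans
      ((Equiv.refl _).prodCongr (Equiv.prodComm _ _))
  have hE₁ : ∀ k a b, E₁ (e₁ (k, a), b) = (k, a, b) := fun k a b => by simp [E₁]
  have hE₂ : ∀ k a b, E₂ (e₂ (k, b), a) = (k, a, b) := fun k a b => by simp [E₂]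
  refine ⟨(C ⧸ Subgroup.zpowers z) × O₁ × O₂, Finite.of_equiv _ E₁, inferInstance,
    transfer E₁ μ₂ f₁, transfer E₂ μ₁ f₂, adm_transfer _ _ hμ₂ _, adm_transfer _ _ hμ₁ _, ?_⟩
  refine MonoidHom.ext (fun γ => ?_)
  refine Wr.ext (Equiv.ext ?_) (funext ?_)
  · rintro ⟨k, a, b⟩
    simp only [MonoidHom.comp_apply]
    conv_lhs => rw [← hE₁, transfer_perm, (h₁ γ k a).1, hE₁]
    conv_rhs => rw [← hE₂, transfer_perm, (h₂ γ k b).1, hE₂]
  · rintro ⟨k, a, b⟩
    simp only [MonoidHom.comp_apply]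
    conv_lhs => rw [← hE₁, transfer_coc, (h₁ γ k a).1, (h₁ γ k a).2]
    conv_rhs => rw [← hE₂, transfer_coc, (h₂ γ k b).1, (h₂ γ k b).2]
    ring

theorem base_space {G : Type u} [Group G] (N : Subgroup G) [hN : N.Normal] {χ : G → ℤ}
    (hχ : IsChar N χ) (hfg : (hχ.pre 0).FG) (hne : ∃ g ∈ N, χ g ≠ 0) (Z : Set G)
    (hZN : ∀ z ∈ Z, z ∈ N) (hZ : ∀ z ∈ Z, ∀ x : G ⧸ N, χ (x.out⁻¹ * z * x.out) ≠ 0) :
    ∃ ρ : G →* Wr (G ⧸ N), Good N Z ρ := by
  let ρ : G →* Wr (G ⧸ N) :=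
    { toFun := fun g => ⟨MulAction.toPerm g, fun x => χ ((g • x).out⁻¹ * g * x.out)⟩
      map_one' := by
        ext x
        · simp
        · simp [hχ.one]
      map_mul' := fun a b => by
        ext x
        · simp [mul_smul]
        · simp only [mul_coc, MulAction.toPerm_apply]
          rw [← hχ _ (out_mem N a (b • x)) _ (out_mem N b x), mul_smul]
          congr 1
          group }
  have hfix : ∀ g (x : G ⧸ N), g • x = x ↔ g ∈ N := by
    intro g x
    have h1 := out_mem N g x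
    constructor
    · intro h
      rw [h] at h1
      simpa [mul_assoc] using hN.conj_mem _ h1 x.out
    · intro h
      conv_rhs => rw [← QuotientGroup.out_eq' x]
      conv_lhs => rw [← QuotientGroup.out_eq' x]
      change ((g * x.out : G) : G ⧸ N) = _
      rw [QuotientGroup.eq]
      simpa [mul_assoc] using hN.conj_mem _ (N.inv_mem h) x.out⁻¹
  have hcoc : ∀ g ∈ N, ∀ x : G ⧸ N, (ρ g).coc x = χ (x.out⁻¹ * g * x.out) := by
    intro g hg x
    change χ ((g • x).out⁻¹ * g * x.out) = _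
    rw [(hfix g x).mpr hg]
  refine ⟨ρ, fun x => ⟨?_, ?_, fun z hz => ?_, ?_⟩⟩
  · ext g
    exact hfix g x
  · convert fg_map hfg (MulAut.conj x.out).toMonoidHom using 1
    ext g
    rw [Subgroup.mem_comap, mem_fix0, Subgroup.mem_map]
    constructor
    · rintro ⟨h1, h2⟩
      have hg := (hfix g x).mp h1
      rw [hcoc g hg] at h2
      refine ⟨x.out⁻¹ * g * x.out, hχ.mem_pre_zero.mpr ⟨?_, h2⟩, by simp [mul_assoc]⟩
      simpa using hN.conj_mem _ hg x.out⁻¹
    · rintro ⟨h, hh, rfl⟩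
      obtain ⟨h1, h2⟩ := hχ.mem_pre_zero.mp hh
      have hg : x.out * h * x.out⁻¹ ∈ N := hN.conj_mem _ h1 _
      refine ⟨(hfix _ x).mpr hg, ?_⟩
      change (ρ (x.out * h * x.out⁻¹)).coc x = 0
      rw [hcoc _ hg]
      simpa [mul_assoc] using h2
  · rw [hcoc z (hZN z hz)]
    exact hZ z hz x
  · obtain ⟨h, h1, h2⟩ := hne
    have hg : x.out * h * x.out⁻¹ ∈ N := hN.conj_mem _ h1 _
    refine ⟨_, hg, ?_⟩
    rw [hcoc _ hg]
    simpa [mul_assoc] using h2

end Pool.Agent.Lib.MP_64528c_al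
end
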