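import Mathlib
import Pool.Agent.Lib.MP_64528c_al.Wr

/-!
Construction of compatible cocycle actions of all vertex groups of a tree of groups.
-/

set_option autoImplicit false

namespace Pool.Agent.Lib.MP_64528c_al

universe u

open Wr

lemma edge_cases {V : Type*} {Γ : SimpleGraph V} {S : Set V} {v w : V} (hadj : Γ.Adj v w)
    (hw : w ∉ S) (huniq : ∀ v' ∈ S, Γ.Adj v' w → v' = v) (e : Γ.edgeSet) {b : V} (hb : b ∈ S)
    (h1 : w ∈ e.1) (h2 : b ∈ e.1) : b = v ∧ e = ⟨s(v, w), hadj⟩ := by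
  have hne : b ≠ w := fun h => hw (h ▸ hb)
  have he : e.1 = s(b, w) := (Sym2.mem_and_mem_iff hne).mp ⟨h2, h1⟩
  have hadj' : Γ.Adj b w := by
    have := e.2
    rwa [he] at this
  have := huniq b hb hadj'
  subst this
  exact ⟨rfl, Subtype.ext he⟩

theorem exists_levels {V : Type*} [Finite V] {Γ : SimpleGraph V} (hΓ : Γ.IsTree) (D : V → ℕ)
    (hD : ∀ v, 0 < D v) (r : ∀ (e : Γ.edgeSet) (v : V), v ∈ e.1 → ℕ)
    (hr : ∀ e v h, 0 < r e v h) :
    ∃ n : V → ℕ, (∀ v, 0 < n v) ∧ (∀ v, D v ∣ n v) ∧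
      ∀ e v w hv hw, n v * r e v hv = n w * r e w hw := by
  classical
  obtain ⟨v₀⟩ := hΓ.connected.nonempty
  have := tree_induction hΓ (fun S => ∃ n : V → ℕ, (∀ v, 0 < n v) ∧ (∀ v ∈ S, D v ∣ n v) ∧
      ∀ e v w hv hw, v ∈ S → w ∈ S → n v * r e v hv = n w * r e w hw) v₀ ?_ ?_
  · obtain ⟨n, h1, h2, h3⟩ := this
    exact ⟨n, h1, fun v => h2 v trivial, fun e v w hv hw => h3 e v w hv hw trivial trivial⟩
  · refine ⟨D, hD, fun _ _ => dvd_rfl, ?_⟩
    rintro e v w hv hw rfl rfl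
    rfl
  · rintro S v w hv hw hadj huniq ⟨n, h1, h2, h3⟩
    let e₀ : Γ.edgeSet := ⟨s(v, w), hadj⟩
    have m1 : v ∈ e₀.1 := Sym2.mem_mk_left _ _
    have m2 : w ∈ e₀.1 := Sym2.mem_mk_right _ _
    let n' : V → ℕ := fun u => if u = w then n v * r e₀ v m1 * D w else n u * r e₀ w m2 * D w
    have hn1 : n' w = n v * r e₀ v m1 * D w := by simp [n']
    have hn2 : ∀ u ∈ S, n' u = n u * r e₀ w m2 * D w := by
      intro u hu
      have : u ≠ w := fun h => hw (h ▸ hu)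
      simp [n', this]
    refine ⟨n', fun u => ?_, ?_, ?_⟩
    · simp only [n']
      split_ifs
      · exact Nat.mul_pos (Nat.mul_pos (h1 _) (hr _ _ _)) (hD _)
      · exact Nat.mul_pos (Nat.mul_pos (h1 _) (hr _ _ _)) (hD _)
    · rintro u (rfl | hu)
      · rw [hn1]; exact Dvd.intro_left _ rfl
      · rw [hn2 u hu, mul_assoc]; exact (h2 u hu).mul_right _
    · rintro e a b ha hb (rfl | ha') (rfl | hb')
      · rfl
      · obtain ⟨rfl, rfl⟩ := edge_cases hadj hw huniq e hb' ha hb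
        rw [hn1, hn2 _ hb']; ring
      · obtain ⟨rfl, rfl⟩ := edge_cases hadj hw huniq e ha' hb ha
        rw [hn1, hn2 _ ha']; ring
      · rw [hn2 _ ha', hn2 _ hb']
        have := h3 e a b ha hb ha' hb'
        calc n a * r e₀ w m2 * D w * r e a ha = (n a * r e a ha) * (r e₀ w m2 * D w) := by ring
          _ = (n b * r e b hb) * (r e₀ w m2 * D w) := by rw [this]
          _ = _ := by ring

theorem exists_actions {V : Type*} [Finite V] {Γ : SimpleGraph V} (hΓ : Γ.IsTree)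
    (Gv : V → Type u) [∀ v, Group (Gv v)] (Ge : Γ.edgeSet → Type u) [∀ e, Group (Ge e)]
    (α : ∀ (e : Γ.edgeSet) (v : V), v ∈ e.1 → Ge e →* Gv v)
    (N : ∀ v, Subgroup (Gv v)) (z : ∀ e, Ge e)
    (hNz : ∀ e v h, (N v).comap (α e v h) = Subgroup.zpowers (z e))
    (Xb : V → Type u) [∀ v, Finite (Xb v)] [∀ v, Nonempty (Xb v)] (ρb : ∀ v, Gv v →* Wr (Xb v))
    (hb : ∀ v, Good (N v) {g | ∃ e h, g = α e v h (z e)} (ρb v)) :
    ∃ (X : Type u) (_ : Finite X) (_ : Nonempty X) (ρ : ∀ v, Gv v →* Wr X),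
      (∀ v, Good (N v) {g | ∃ e h, g = α e v h (z e)} (ρ v)) ∧
      ∀ e v w hv hw, (ρ v).comp (α e v hv) = (ρ w).comp (α e w hw) := by
  classical
  obtain ⟨v₀⟩ := hΓ.connected.nonempty
  have hZ : ∀ v, ∀ g ∈ {g | ∃ e h, g = α e v h (z e)}, g ∈ N v := by
    rintro v _ ⟨e, h, rfl⟩
    rw [← Subgroup.mem_comap, hNz]
    exact Subgroup.mem_zpowers _
  have := tree_induction hΓ (fun S => ∃ (X : Type u) (_ : Finite X) (_ : Nonempty X)
      (ρ : ∀ v, Gv v →* Wr X), (∀ v ∈ S, Good (N v) {g | ∃ e h, g = α e v h (z e)} (ρ v)) ∧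
      ∀ e v w hv hw, v ∈ S → w ∈ S → (ρ v).comp (α e v hv) = (ρ w).comp (α e w hw)) v₀ ?_ ?_
  · obtain ⟨X, h1, h2, ρ, h3, h4⟩ := this
    exact ⟨X, h1, h2, ρ, fun v => h3 v trivial, fun e v w hv hw => h4 e v w hv hw trivial trivial⟩
  · refine ⟨Xb v₀, inferInstance, inferInstance, Function.update (fun _ => 1) v₀ (ρb v₀), ?_, ?_⟩
    · rintro v rfl
      simpa using hb v
    · rintro e v w hv hw rfl rfl
      rfl
  · rintro S v w hv hw hadj huniq ⟨X, _, _, ρ, h3, h4⟩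
    let e₀ : Γ.edgeSet := ⟨s(v, w), hadj⟩
    have m1 : v ∈ e₀.1 := Sym2.mem_mk_left _ _
    have m2 : w ∈ e₀.1 := Sym2.mem_mk_right _ _
    obtain ⟨X', _, _, T₁, T₂, hT₁, hT₂, hT⟩ := glue (z e₀) ((ρ v).comp (α e₀ v m1))
      (fun x => by rw [← Subgroup.comap_comap, (h3 v hv x).1, hNz])
      (fun x => (h3 v hv x).2.2.1 _ ⟨e₀, m1, rfl⟩) ((ρb w).comp (α e₀ w m2))
      (fun x => by rw [← Subgroup.comap_comap, (hb w x).1, hNz])
      (fun x => (hb w x).2.2.1 _ ⟨e₀, m2, rfl⟩)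
    let ρ' : ∀ u, Gv u →* Wr X' := Function.update (fun u => T₁.comp (ρ u)) w (T₂.comp (ρb w))
    have hn1 : ρ' w = T₂.comp (ρb w) := by simp [ρ']
    have hn2 : ∀ u ∈ S, ρ' u = T₁.comp (ρ u) := by
      intro u hu
      have : u ≠ w := fun h => hw (h ▸ hu)
      simp [ρ', this]
    refine ⟨X', inferInstance, inferInstance, ρ', ?_, ?_⟩
    · rintro u (rfl | hu)
      · rw [hn1]; exact (hb u).adm (hZ u) hT₂
      · rw [hn2 u hu]; exact (h3 u hu).adm (hZ u) hT₁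
    · rintro e a b ha hb (rfl | ha') (rfl | hb')
      · rfl
      · obtain ⟨rfl, rfl⟩ := edge_cases hadj hw huniq e hb' ha hb
        rw [hn1, hn2 _ hb']
        exact hT.symm
      · obtain ⟨rfl, rfl⟩ := edge_cases hadj hw huniq e ha' hb ha
        rw [hn1, hn2 _ ha']
        exact hT
      · rw [hn2 _ ha', hn2 _ hb', MonoidHom.comp_assoc, MonoidHom.comp_assoc,
          h4 e a b ha hb ha' hb']

theorem core {V : Type*} [Finite V] {Γ : SimpleGraph V} (hΓ : Γ.IsTree)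
    (Gv : V → Type u) [∀ v, Group (Gv v)] (Ge : Γ.edgeSet → Type u) [∀ e, Group (Ge e)]
    (α : ∀ (e : Γ.edgeSet) (v : V), v ∈ e.1 → Ge e →* Gv v) (c : ∀ e, Ge e)
    (hK : ∀ e v h, ∃ (K : Subgroup (Gv v)) (ψ : Gv v → ℤ), K.FiniteIndex ∧ IsChar K ψ ∧
      α e v h (c e) ∈ K ∧ ψ (α e v h (c e)) = 1 ∧
      ∀ g, α e v h g ∈ K → g ∈ Subgroup.zpowers (c e))
    (hφ : ∀ v, ∃ (φ : Gv v → ℤ) (h : IsChar ⊤ φ), (h.pre 0).FG ∧ ∃ g, φ g ≠ 0) :
    ∃ (X : Type u) (_ : Finite X) (_ : Nonempty X) (ρ : ∀ v, Gv v →* Wr X)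
      (N : ∀ v, Subgroup (Gv v)) (z : ∀ e, Ge e),
      (∀ e v h, α e v h (z e) ∈ N v) ∧
      (∀ v, Good (N v) {g | ∃ e h, g = α e v h (z e)} (ρ v)) ∧
      ∀ e v w hv hw, (ρ v).comp (α e v hv) = (ρ w).comp (α e w hw) := by
  classical
  choose K ψ hKf hψ hcK hψ1 hKc using hK
  choose D r hD hr hfam using fun v => exists_family (I := {e : Γ.edgeSet // v ∈ e.1})
    (fun e => α e.1 v e.2 (c e.1)) (fun e => K e.1 v e.2) (fun e => ψ e.1 v e.2)
    (fun e => hψ e.1 v e.2) (fun e => hcK e.1 v e.2) (fun e => hψ1 e.1 v e.2)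
  obtain ⟨n, hn0, hDn, hnr⟩ := exists_levels hΓ D hD (fun e v h => r v ⟨e, h⟩)
    (fun e v h => hr v ⟨e, h⟩)
  choose N hNn hNf hNK hNc using fun v => hfam v (n v) (hn0 v) (hDn v)
  let p : Γ.edgeSet → ℕ := fun e => n e.1.out.1 * r e.1.out.1 ⟨e, Sym2.out_fst_mem _⟩
  have hp : ∀ e v h, n v * r v ⟨e, h⟩ = p e := fun e v h => hnr e v _ h _
  have hp0 : ∀ e, 0 < p e := fun e => Nat.mul_pos (hn0 _) (hr _ _)
  let z : ∀ e, Ge e := fun e => c e ^ (p e : ℤ)
  have hNz : ∀ e v h, (N v).comap (α e v h) = Subgroup.zpowers (z e) := by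
    intro e v h
    have key : ∀ m : ℤ, α e v h (c e ^ m) ∈ N v ↔ (p e : ℤ) ∣ m := by
      intro m
      rw [map_zpow, ← hp e v h]
      exact hNc v ⟨e, h⟩ m
    ext g
    rw [Subgroup.mem_comap]
    constructor
    · intro hg
      obtain ⟨m, rfl⟩ := Subgroup.mem_zpowers_iff.mp (hKc e v h g (hNK v ⟨e, h⟩ hg))
      obtain ⟨q, rfl⟩ := (key m).mp hg
      exact Subgroup.mem_zpowers_iff.mpr ⟨q, by rw [zpow_mul]⟩
    · intro hg
      obtain ⟨q, rfl⟩ := Subgroup.mem_zpowers_iff.mp hg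
      rw [← zpow_mul, key]
      exact Dvd.intro _ rfl
  have hZ : ∀ e v h, α e v h (z e) ∈ N v := by
    intro e v h
    rw [← Subgroup.mem_comap, hNz]
    exact Subgroup.mem_zpowers _
  have hbase : ∀ v, ∃ ρ : Gv v →* Wr (Gv v ⧸ N v),
      Good (N v) {g | ∃ e h, g = α e v h (z e)} ρ := by
    intro v
    obtain ⟨φ, hφ, hfg, g, hg⟩ := hφ v
    have := hNf v
    have := hNn v
    have hφN : IsChar (N v) φ := hφ.mono le_top
    have hfgN : (hφN.pre 0).FG := by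
      convert fg_inf_of_finiteIndex (N := N v) hfg using 1
      ext x
      simp [IsChar.mem_pre, and_comm]
    have hneN : ∃ g ∈ N v, φ g ≠ 0 := by
      obtain ⟨k, hk, -, hgk⟩ := Subgroup.exists_pow_mem_of_index_ne_zero
        (Subgroup.FiniteIndex.index_ne_zero (H := N v)) g
      refine ⟨_, hgk, ?_⟩
      rw [hφ.pow trivial]
      exact mul_ne_zero (by exact_mod_cast hk.ne') hg
    obtain ⟨χ, hχ, h1, h2, h3⟩ := exists_good_char hφN hneN hfgN
      (T := Set.range (fun q : {e : Γ.edgeSet // v ∈ e.1} × (Gv v ⧸ N v) =>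
        q.2.out⁻¹ * α q.1.1 v q.1.2 (z q.1.1) * q.2.out)) (Set.finite_range _) (by
        rintro _ ⟨⟨⟨e, h⟩, x⟩, rfl⟩
        refine ⟨fun y => ψ e v h (x.out * y * x.out⁻¹), fun a ha b hb => ?_, ?_⟩
        · rw [← hψ e v h _ (hNK v ⟨e, h⟩ ((hNn v).conj_mem _ ha _)) _
            (hNK v ⟨e, h⟩ ((hNn v).conj_mem _ hb _))]
          congr 1
          group
        · have e1 : x.out * (x.out⁻¹ * α e v h (z e) * x.out) * x.out⁻¹ =
              α e v h (c e) ^ (p e : ℤ) := by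
            rw [← map_zpow]
            change _ = α e v h (z e)
            group
          simp only [e1]
          rw [(hψ e v h).zpow (hcK e v h), hψ1, mul_one]
          exact_mod_cast (hp0 e).ne')
    refine base_space (N v) hχ h1 h2 _ ?_ ?_
    · rintro _ ⟨e, h, rfl⟩
      exact hZ e v h
    · rintro _ ⟨e, h, rfl⟩ x
      exact h3 _ ⟨⟨⟨e, h⟩, x⟩, rfl⟩
  choose ρb hρb using hbase
  obtain ⟨X, h1, h2, ρ, h3, h4⟩ := exists_actions hΓ Gv Ge α N z hNz (fun v => Gv v ⧸ N v) ρb hρb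
  exact ⟨X, h1, h2, ρ, N, z, hZ, h3, h4⟩

lemma fibered_of_char {G : Type*} [Group G] {K : Subgroup G} {χ : G → ℤ} (h : IsChar K χ)
    (hfg : (h.pre 0).FG) (hne : ∃ g ∈ K, χ g ≠ 0) :
    ∃ φ : K →* Multiplicative ℤ, Function.Surjective φ ∧ φ.ker.FG := by
  let S : AddSubgroup ℤ :=
    { carrier := {m | ∃ g ∈ K, χ g = m}
      zero_mem' := ⟨1, K.one_mem, h.one⟩
      add_mem' := by
        rintro _ _ ⟨a, ha, rfl⟩ ⟨b, hb, rfl⟩
        exact ⟨a * b, K.mul_mem ha hb, h a ha b hb⟩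
      neg_mem' := by
        rintro _ ⟨a, ha, rfl⟩
        exact ⟨a⁻¹, K.inv_mem ha, h.inv ha⟩ }
  obtain ⟨a, ha⟩ := Int.subgroup_cyclic S
  have hdvd : ∀ g ∈ K, a ∣ χ g := by
    intro g hg
    have : χ g ∈ S := ⟨g, hg, rfl⟩
    rw [ha, AddSubgroup.mem_closure_singleton] at this
    obtain ⟨k, hk⟩ := this
    exact ⟨k, by rw [← hk]; simp [mul_comm]⟩
  have ha0 : a ≠ 0 := by
    rintro rfl
    obtain ⟨g, hg, hg'⟩ := hne
    exact hg' (by simpa using hdvd g hg)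
  obtain ⟨t, ht, hta⟩ : a ∈ S := by
    rw [ha]; exact AddSubgroup.subset_closure rfl
  let φ : K →* Multiplicative ℤ :=
    { toFun := fun g => Multiplicative.ofAdd (χ g / a)
      map_one' := by simp [h.one]
      map_mul' := fun x y => by
        rw [← ofAdd_add, Subgroup.coe_mul, h x x.2 y y.2, Int.add_ediv_of_dvd_left (hdvd x x.2)] }
  refine ⟨φ, fun m => ⟨⟨t, ht⟩ ^ m.toAdd, ?_⟩, ?_⟩
  · rw [map_zpow]
    change (Multiplicative.ofAdd (χ t / a)) ^ m.toAdd = m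
    rw [hta, Int.ediv_self ha0, ← ofAdd_zsmul]
    simp
  · apply fg_of_map K.subtype K.subtype_injective
    convert hfg using 1
    rw [← h.map_pre]
    congr 1
    ext g
    rw [MonoidHom.mem_ker, IsChar.mem_pre_zero]
    change Multiplicative.ofAdd (χ g / a) = 1 ↔ _
    obtain ⟨k, hk⟩ := hdvd g g.2
    rw [hk, Int.mul_ediv_cancel_left _ ha0]
    simp [ha0]

theorem final {V : Type*} [Finite V] {Γ : SimpleGraph V} (hΓ : Γ.IsTree)
    (Gv : V → Type u) [∀ v, Group (Gv v)] (Ge : Γ.edgeSet → Type u) [∀ e, Group (Ge e)]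
    (α : ∀ (e : Γ.edgeSet) (v : V), v ∈ e.1 → Ge e →* Gv v)
    {X : Type u} [Finite X] [Nonempty X] (ρ : ∀ v, Gv v →* Wr X)
    (N : ∀ v, Subgroup (Gv v)) (z : ∀ e, Ge e) (hZ : ∀ e v h, α e v h (z e) ∈ N v)
    (hgood : ∀ v, Good (N v) {g | ∃ e h, g = α e v h (z e)} (ρ v))
    {G : Type*} [Group G] (ι : ∀ v, Gv v →* G)
    (hι : ∀ e v w hv hw, (ι v).comp (α e v hv) = (ι w).comp (α e w hw))
    (hgen : ⨆ v, (ι v).range = ⊤) (σ : G →* Wr X) (hσ : ∀ v, σ.comp (ι v) = ρ v) :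
    ∃ K : Subgroup G, K.FiniteIndex ∧
      ∃ φ : K →* Multiplicative ℤ, Function.Surjective φ ∧ φ.ker.FG := by
  obtain ⟨v₀⟩ := hΓ.connected.nonempty
  let _ : MulAction G (X × ℤ) := MulAction.compHom _ σ
  have hsm : ∀ (g : G) (y : X × ℤ), g • y = ((σ g).perm y.1, y.2 + (σ g).coc y.1) := fun _ _ => rfl
  have hst : ∀ y : X × ℤ, MulAction.stabilizer G y = (fix0 y.1).comap σ := by
    intro y
    rw [← stabilizer_eq]
    rfl
  have hσ' : ∀ v g, σ (ι v g) = ρ v g := fun v g => by rw [← hσ v]; rfl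
  have hv : ∀ v (y : X × ℤ), ((ι v).range ⊓ MulAction.stabilizer G y).FG := by
    intro v y
    convert fg_map (hgood v y.1).2.1 (ι v) using 1
    rw [hst, ← hσ v, ← Subgroup.comap_comap, Subgroup.map_comap_eq]
  have key := tree_induction hΓ
    (fun S => ∀ y : X × ℤ, ((⨆ v ∈ S, (ι v).range) ⊓ MulAction.stabilizer G y).FG) v₀
    (by simpa using hv v₀) (by
      intro S v w hvS hw hadj _ ih y
      let e₀ : Γ.edgeSet := ⟨s(v, w), hadj⟩
      have m1 : v ∈ e₀.1 := Sym2.mem_mk_left _ _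
      have m2 : w ∈ e₀.1 := Sym2.mem_mk_right _ _
      rw [iSup_insert]
      let c : G := ι w (α e₀ w m2 (z e₀))
      have hc1 : ∀ x, (σ c).perm x = x := by
        intro x
        have := hZ e₀ w m2
        rw [← (hgood w x).1] at this
        simp only [c, hσ']
        exact this
      have hc2 : ∀ x, (σ c).coc x ≠ 0 := by
        intro x
        simp only [c, hσ']
        exact (hgood w x).2.2.1 _ ⟨e₀, m2, rfl⟩
      refine fg_stab_sup _ _ (Subgroup.zpowers c) ?_ ?_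
        (R := ⋃ x : X, {x} ×ˢ Set.Ico 0 |(σ c).coc x|)
        (Set.finite_iUnion (fun x => (Set.finite_singleton x).prod (Set.finite_Ico _ _))) ?_
        (hv w) ih y
      · rw [Subgroup.zpowers_le]
        exact ⟨_, rfl⟩
      · rw [Subgroup.zpowers_le]
        refine (le_iSup₂ (f := fun v (_ : v ∈ S) => (ι v).range) v hvS) ⟨α e₀ v m1 (z e₀), ?_⟩
        exact DFunLike.congr_fun (hι e₀ v w m1 m2) (z e₀)
      · rintro ⟨x, j⟩
        refine ⟨c ^ (-(j / (σ c).coc x)), Subgroup.zpow_mem_zpowers _ _, ?_⟩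
        rw [hsm, map_zpow]
        have h1 : (σ c ^ (-(j / (σ c).coc x))).perm x = x :=
          (fix x).zpow_mem (mem_fix.mpr (hc1 x)) _
        have h2 := (isChar_fix x).zpow (mem_fix.mpr (hc1 x)) (-(j / (σ c).coc x))
        simp only [h1, h2]
        refine Set.mem_iUnion.mpr ⟨x, rfl, ?_⟩
        have e : j + -(j / (σ c).coc x) * (σ c).coc x = j % (σ c).coc x := by
          rw [Int.emod_def]; ring
        simp only [e]
        exact ⟨Int.emod_nonneg _ (hc2 x), Int.emod_lt_abs _ (hc2 x)⟩)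
  obtain ⟨x₀⟩ := ‹Nonempty X›
  have hK : IsChar ((fix x₀).comap σ) (fun g => (σ g).coc x₀) := by
    intro a ha b hb
    simp only [map_mul]
    exact isChar_fix x₀ _ ha _ hb
  refine ⟨(fix x₀).comap σ, ?_, fibered_of_char hK ?_ ?_⟩
  · let π : Wr X →* Equiv.Perm X := ⟨⟨Wr.perm, rfl⟩, fun _ _ => rfl⟩
    refine Subgroup.finiteIndex_of_le (H := (π.comp σ).ker) (fun g hg => ?_)
    have : (σ g).perm = 1 := hg
    change (σ g).perm x₀ = x₀
    rw [this]; rfl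
  · have := key (x₀, 0)
    simp only [Set.mem_univ, iSup_pos, hgen, top_inf_eq, hst] at this
    exact this
  · obtain ⟨h, hh, hh'⟩ := (hgood v₀ x₀).2.2.2
    rw [← (hgood v₀ x₀).1] at hh
    refine ⟨ι v₀ h, ?_, by simpa only [hσ'] using hh'⟩
    rw [Subgroup.mem_comap, hσ']
    exact hh

lemma exists_retract_char {C G : Type*} [Group C] [Group G] (α : C →* G)
    (hα : Function.Injective α) (c : C) (hc : ¬ IsOfFinOrder c)
    [(Subgroup.zpowers c).FiniteIndex] (H : Subgroup G) [H.FiniteIndex] (hle : α.range ≤ H)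
    (ρ : H →* α.range) (hρ : ∀ k : α.range, ρ (Subgroup.inclusion hle k) = k) :
    ∃ (K : Subgroup G) (ψ : G → ℤ), K.FiniteIndex ∧ IsChar K ψ ∧ α c ∈ K ∧ ψ (α c) = 1 ∧
      ∀ g, α g ∈ K → g ∈ Subgroup.zpowers c := by
  classical
  let σ : H →* C := (MonoidHom.ofInjective hα).symm.toMonoidHom.comp ρ
  have hσ : ∀ g (h : α g ∈ H), σ ⟨α g, h⟩ = g := by
    intro g h
    have := hρ ⟨α g, g, rfl⟩
    change (MonoidHom.ofInjective hα).symm (ρ (Subgroup.inclusion hle ⟨α g, g, rfl⟩)) = g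
    rw [this, MulEquiv.symm_apply_eq]
    rfl
  have hinj : Function.Injective (fun m : ℤ => c ^ m) :=
    injective_zpow_iff_not_isOfFinOrder.mpr hc
  let lg : C → ℤ := fun y => if h : ∃ m : ℤ, c ^ m = y then h.choose else 0
  have hlg : ∀ m : ℤ, lg (c ^ m) = m := by
    intro m
    have h : ∃ m' : ℤ, c ^ m' = c ^ m := ⟨m, rfl⟩
    simp only [lg, dif_pos h]
    exact hinj h.choose_spec
  refine ⟨((Subgroup.zpowers c).comap σ).map H.subtype,
    fun g => if h : g ∈ H then lg (σ ⟨g, h⟩) else 0, ?_, ?_, ?_, ?_, ?_⟩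
  · constructor
    rw [Subgroup.index_map_subtype, Subgroup.index_comap]
    exact mul_ne_zero (Subgroup.FiniteIndex.index_ne_zero
      (H := (Subgroup.zpowers c).subgroupOf σ.range)) Subgroup.FiniteIndex.index_ne_zero
  · rintro _ ⟨a, ha, rfl⟩ _ ⟨b, hb, rfl⟩
    obtain ⟨m, hm⟩ := Subgroup.mem_zpowers_iff.mp ha
    obtain ⟨n, hn⟩ := Subgroup.mem_zpowers_iff.mp hb
    simp only [Subgroup.coe_subtype, ← Subgroup.coe_mul, SetLike.coe_mem, dite_true,
      Subtype.coe_eta]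
    rw [map_mul, ← hm, ← hn, ← zpow_add, hlg, hlg, hlg]
  · refine ⟨⟨α c, hle ⟨c, rfl⟩⟩, ?_, rfl⟩
    change σ _ ∈ Subgroup.zpowers c
    rw [hσ]
    exact Subgroup.mem_zpowers c
  · have h : α c ∈ H := hle ⟨c, rfl⟩
    simp only [dif_pos h, hσ]
    simpa using hlg 1
  · rintro g ⟨⟨a, ha⟩, h1, rfl⟩
    have h2 : σ _ ∈ Subgroup.zpowers c := h1
    rwa [hσ] at h2

lemma exists_generator {C : Type*} [Group C] [Infinite C] (Z : Subgroup C) [IsCyclic Z]
    [Z.FiniteIndex] : ∃ c : C, ¬ IsOfFinOrder c ∧ (Subgroup.zpowers c).FiniteIndex := by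
  obtain ⟨c, hc⟩ := (Subgroup.isCyclic_iff_exists_zpowers_eq_top Z).mp inferInstance
  refine ⟨c, fun h => ?_, hc ▸ inferInstance⟩
  have : Finite Z := hc ▸ h.finite_zpowers
  have h2 := Z.card_mul_index
  rw [Nat.card_eq_zero_of_infinite (α := C)] at h2
  exact mul_ne_zero Nat.card_pos.ne' Subgroup.FiniteIndex.index_ne_zero h2

end Pool.Agent.Lib.MP_64528c_al
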